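import Mathlib

set_option autoImplicit false

namespace Pool.Agent.Results.MP_096971_nt.Unbounded

/-- the base-`b` elated function: leading digit times the sum of the squares of the digits -/
def E (b a : ℕ) : ℕ := (Nat.digits b a).getLastD 0 * ((Nat.digits b a).map fun d => d ^ 2).sum

/-- `S` is a cycle of `E b` -/
def IsCycle (b : ℕ) (S : Set ℕ) : Prop :=
  ∃ k : ℕ, 1 ≤ k ∧ ∃ x : ℕ → ℕ, (∀ j < k, 0 < x j) ∧ Set.InjOn x (Set.Iio k) ∧
    (∀ j, j + 1 < k → E b (x j) = x (j + 1)) ∧ E b (x (k - 1)) = x 0 ∧ S = x '' Set.Iio k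

def p (n : ℤ) : ℤ := 2 * n ^ 4 + 20 * n ^ 2 + 1
def q (n : ℤ) : ℤ := n * (2 * n ^ 2 + 11)
def N (n : ℤ) : ℤ := p n ^ 2 + (2 * q n) ^ 2
def pi (n : ℤ) : GaussianInt := ⟨p n, 2 * q n⟩
def W (T : ℤ) : GaussianInt := ⟨T ^ 2 + 1067, -4 * T⟩

lemma pi_N (n : ℤ) : (N n : GaussianInt) = pi n * ⟨p n, -(2 * q n)⟩ := by
  ext
  · simp only [pi, Zsqrtd.re_intCast, Zsqrtd.re_mul]
    unfold N
    ring
  · simp only [pi, Zsqrtd.im_intCast, Zsqrtd.im_mul]
    ring

lemma cop (m : ℤ) : IsCoprime (p (97 * m)) (2 * q (97 * m)) := by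
  have h1 : IsCoprime (p (97 * m)) 2 := ⟨1, -((97 * m) ^ 4 + 10 * (97 * m) ^ 2), by unfold p; ring⟩
  have h2 : IsCoprime (p (97 * m)) (97 * m) :=
    ⟨1, -(2 * (97 * m) ^ 3 + 20 * (97 * m)), by unfold p; ring⟩
  have h3 : IsCoprime (p (97 * m)) (2 * (97 * m) ^ 2 + 11) := by
    refine ⟨1 + 2 * (2 * 97 ^ 3 * m ^ 4 + 20 * 97 * m ^ 2),
      -(2 * 97 ^ 3 * m ^ 4 + 20 * 97 * m ^ 2) * (2 * (97 * m) ^ 2 + 9), ?_⟩
    unfold p; ring
  unfold q
  exact h1.mul_right (h2.mul_right h3)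

lemma ex_T (m : ℤ) : ∃ T0 : ℤ, ∀ T, N (97 * m) ∣ T - T0 → pi (97 * m) ∣ W T := by
  obtain ⟨a, b, hab⟩ := cop m
  generalize 97 * m = n at hab ⊢
  refine ⟨-6 * n + p n * (-(6 * n ^ 2 + 35) * b) - 2 * q n * (-(6 * n ^ 2 + 35) * a), ?_⟩
  rintro T ⟨j, hj⟩
  have h1 : pi n ∣ (⟨T, -2⟩ : GaussianInt) - ⟨-6 * n, 6 * n ^ 2 + 33⟩ := by
    refine ⟨⟨-(6 * n ^ 2 + 35) * b + p n * j, -(6 * n ^ 2 + 35) * a - 2 * q n * j⟩, ?_⟩
    ext
    · simp only [pi, Zsqrtd.re_sub, Zsqrtd.re_mul]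
      unfold N at hj
      linear_combination hj
    · simp only [pi, Zsqrtd.im_sub, Zsqrtd.im_mul]
      linear_combination (6 * n ^ 2 + 35) * hab
  have h2 : W T = ((⟨T, -2⟩ : GaussianInt) - ⟨-6 * n, 6 * n ^ 2 + 33⟩) *
      ((⟨T, -2⟩ : GaussianInt) + ⟨-6 * n, 6 * n ^ 2 + 33⟩) + pi n * ⟨-18, 0⟩ := by
    ext <;> simp only [W, pi, p, q, Zsqrtd.re_sub, Zsqrtd.re_mul, Zsqrtd.re_add, Zsqrtd.im_sub,
      Zsqrtd.im_mul, Zsqrtd.im_add] <;> ring
  rw [h2]
  exact dvd_add (h1.mul_right _) (dvd_mul_right _ _)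

lemma N_mod (n : ℤ) : n ∣ N n - 1 :=
  ⟨4 * n ^ 7 + 96 * n ^ 5 + 580 * n ^ 3 + 524 * n, by unfold N p q; ring⟩

lemma N_cop (M c : ℤ) : IsCoprime M (N (c * M)) := by
  obtain ⟨d, hd⟩ := N_mod (c * M)
  exact ⟨-(c * d), 1, by linear_combination hd⟩

lemma N_pos (n : ℤ) : 0 < N n := by
  unfold N p; positivity

lemma crt (K : ℕ) : ∃ (M T0 : ℤ) (S : Finset ℤ), 0 < M ∧ 68 ∣ M ∧ 68 ∣ T0 - 9 ∧ S.card = K ∧
    ∀ n ∈ S, 100 ≤ n ∧ n ≤ 97 * M ∧ 68 ∣ n ∧ ∀ T, M ∣ T - T0 → pi n ∣ W T := by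
  induction K with
  | zero => exact ⟨68, 9, ∅, by norm_num, dvd_rfl, by simp, rfl, by simp⟩
  | succ K ih =>
    obtain ⟨M, T0, S, h1, h2, h3, h4, h5⟩ := ih
    obtain ⟨T1, hT⟩ := ex_T (2 * M)
    have hc : IsCoprime M (N (97 * (2 * M))) := by
      have := N_cop M 194
      rwa [show (194 : ℤ) * M = 97 * (2 * M) by ring] at this
    obtain ⟨a, b, hab⟩ := hc
    have hM : 68 ≤ M := Int.le_of_dvd h1 h2
    have hN := N_pos (97 * (2 * M))
    generalize hN' : N (97 * (2 * M)) = N' at *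
    have e1 : M ∣ T0 * b * N' + T1 * a * M - T0 := ⟨(T1 - T0) * a, by linear_combination T0 * hab⟩
    have e2 : N' ∣ T0 * b * N' + T1 * a * M - T1 := ⟨(T0 - T1) * b, by linear_combination T1 * hab⟩
    refine ⟨2 * M * N', T0 * b * N' + T1 * a * M, insert (97 * (2 * M)) S, by positivity,
      (h2.mul_left 2).mul_right _, ?_, ?_, ?_⟩
    · have := dvd_add (h2.trans e1) h3
      rwa [show T0 * b * N' + T1 * a * M - T0 + (T0 - 9) = T0 * b * N' + T1 * a * M - 9 by ring] at this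
    · rw [Finset.card_insert_of_notMem, h4]
      intro h
      have := (h5 _ h).2.1
      omega
    · intro n hn
      rcases Finset.mem_insert.1 hn with rfl | hn
      · refine ⟨by omega, by nlinarith, (h2.mul_left 2).mul_left 97, fun T h => hT T ?_⟩
        have := dvd_add ((dvd_mul_left N' (2 * M)).trans h) e2
        rwa [show T - (T0 * b * N' + T1 * a * M) + (T0 * b * N' + T1 * a * M - T1) = T - T1 by ring]
          at this
      · obtain ⟨g1, g2, g3, g4⟩ := h5 n hn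
        refine ⟨g1, by nlinarith, g3, fun T h => g4 T ?_⟩
        have := dvd_add ((((dvd_mul_left M 2).mul_right N')).trans h) e1
        rwa [show T - (T0 * b * N' + T1 * a * M) + (T0 * b * N' + T1 * a * M - T0) = T - T0 by ring]
          at this

lemma small {b a c n : ℤ} (hb : 0 ≤ b) (hn : 100 ≤ n) (h : N n * (a ^ 2 + c ^ 2) ≤ 17 * b ^ 2) :
    |10 * (q n * a)| ≤ b := by
  have h0 : 0 < q n := by unfold q; positivity
  have h1 : 42 * q n ≤ p n := by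
    unfold p q
    have : 0 ≤ n ^ 3 * (n - 100) := by
      have : 0 ≤ n - 100 := by omega
      positivity
    have : 0 ≤ n * (n - 100) := by
      have : 0 ≤ n - 100 := by omega
      positivity
    nlinarith [pow_pos (show 0 < n by omega) 3]
  have h2 : 1700 * q n ^ 2 ≤ N n := by unfold N; nlinarith
  apply abs_le_of_sq_le_sq _ hb
  have h3 : 1700 * q n ^ 2 * a ^ 2 ≤ N n * (a ^ 2 + c ^ 2) := by
    have := N_pos n
    nlinarith [sq_nonneg a, sq_nonneg c, mul_le_mul_of_nonneg_right h2 (sq_nonneg a),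
      mul_nonneg this.le (sq_nonneg c)]
  nlinarith

lemma pt (k n : ℤ) (hk : 1 ≤ k) (hn : 100 ≤ n) (h68 : 68 ∣ n) (h : pi n ∣ W (68 * k + 9)) :
    ∃ x y : ℤ, 0 ≤ x ∧ x < 68 * k ^ 2 + 18 * k + 17 ∧ 0 ≤ y ∧ y < 68 * k ^ 2 + 18 * k + 17 ∧
      2 * (y ^ 2 + x ^ 2 + 4) = y + (68 * k ^ 2 + 18 * k + 17) * (x + (68 * k ^ 2 + 18 * k + 17) * 2) ∧
      (x - (34 * k ^ 2 + 13 * k + 9)) * p n = (2 * y + 136 * k ^ 2 + 34 * k + 33) * q n := by
  let z : GaussianInt := ⟨68 * k ^ 2 + 34 * k + 19, 272 * k ^ 2 + 68 * k + 67⟩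
  have e1 : ((68 : ℤ) : GaussianInt) * z = W (68 * k + 9) * ⟨1, 4⟩ := by
    ext <;> simp [z, W] <;> ring
  obtain ⟨c, rfl⟩ := h68
  obtain ⟨a, b, hab⟩ := N_cop 68 c
  rw [mul_comm c 68] at hab
  generalize 68 * c = n at *
  have e2 : pi n ∣ z := by
    have : z = (a : GaussianInt) * (((68 : ℤ) : GaussianInt) * z) + b * ((N n : GaussianInt) * z) := by
      have : ((a * 68 + b * N n : ℤ) : GaussianInt) = 1 := by rw [hab]; simp
      push_cast at this ⊢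
      linear_combination (-z) * this
    rw [this, e1, pi_N]
    exact dvd_add ((h.mul_right _).mul_left _) (((dvd_mul_right _ _).mul_right _).mul_left _)
  obtain ⟨⟨u, v⟩, hw⟩ := e2
  have r1 := congrArg Zsqrtd.re hw
  have r2 := congrArg Zsqrtd.im hw
  simp only [z, pi, Zsqrtd.re_mul, Zsqrtd.im_mul] at r1 r2
  have hb : (0 : ℤ) ≤ 68 * k ^ 2 + 18 * k + 17 := by positivity
  have hn' : N n * (u ^ 2 + v ^ 2) = 17 * (68 * k ^ 2 + 18 * k + 17) ^ 2 - 63 := by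
    unfold N
    linear_combination (-(68 * k ^ 2 + 34 * k + 19) - (p n * u - 2 * q n * v)) * r1 +
      (-(272 * k ^ 2 + 68 * k + 67) - (p n * v + 2 * q n * u)) * r2
  have s1 := abs_le.1 (small (a := u) (c := v) hb hn (by omega))
  have s2 := abs_le.1 (small (a := v) (c := u) hb hn (by rw [add_comm]; omega))
  have hq : 0 < q n := by unfold q; positivity
  have hp : 0 < p n := by unfold p; positivity
  have hu : 0 ≤ u := by
    have h1 : N n * u = (68 * k ^ 2 + 34 * k + 19) * p n + (272 * k ^ 2 + 68 * k + 67) * (2 * q n) := by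
      unfold N
      linear_combination (-p n) * r1 + (-(2 * q n)) * r2
    have h2 : 0 < N n * u := by rw [h1]; positivity
    exact ((mul_pos_iff_of_pos_left (N_pos n)).1 h2).le
  have hqu := mul_nonneg hq.le hu
  have hk2 : 0 ≤ k ^ 2 := sq_nonneg k
  refine ⟨34 * k ^ 2 + 13 * k + 9 + q n * v, 68 * k ^ 2 + 17 * k + 17 - q n * u, by nlinarith,
    by nlinarith, by nlinarith, by nlinarith, ?_, ?_⟩
  · linear_combination (q n * v) * r1 - (q n * u) * r2
  · linear_combination (-q n) * r2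

lemma pq_inj {a b : ℤ} (ha : 100 ≤ a) (hb : 100 ≤ b) (h : p a * q b = p b * q a) : a = b := by
  by_contra hne
  have e : (a - b) * (a * b * (4 * a ^ 2 * b ^ 2 + 22 * (a ^ 2 + b ^ 2) - 18 * a * b + 218) - 2 * (a ^ 2 + b ^ 2) - 11) = 0 := by
    unfold p q at h
    linear_combination h
  rcases mul_eq_zero.1 e with h1 | h1
  · exact hne (by omega)
  · have h2 : 1 ≤ a * b := by nlinarith
    have h3 : 2 * (a ^ 2 + b ^ 2) + 12 ≤ 4 * a ^ 2 * b ^ 2 + 22 * (a ^ 2 + b ^ 2) - 18 * a * b + 218 := by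
      nlinarith [sq_nonneg (a - b), sq_nonneg (a * b)]
    nlinarith [sq_nonneg a, sq_nonneg b]

lemma fixed (b x y : ℕ) (hb : 3 ≤ b) (hx : x < b) (hy : y < b)
    (h : 2 * (y ^ 2 + x ^ 2 + 4) = y + b * (x + b * 2)) :
    IsCycle b {y + b * (x + b * 2)} := by
  have hd : Nat.digits b (y + b * (x + b * 2)) = [y, x, 2] := by
    rw [Nat.digits_add b (by omega) y _ hy (Or.inr (by positivity)),
      Nat.digits_add b (by omega) x _ hx (Or.inr (by norm_num)), Nat.digits_of_lt b 2 (by norm_num) (by omega)]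
  refine ⟨1, le_rfl, fun _ => y + b * (x + b * 2), fun _ _ => by positivity, ?_, ?_, ?_, ?_⟩
  · intro i hi j hj _
    simp only [Set.mem_Iio] at hi hj
    omega
  · intro j hj
    omega
  · unfold E
    rw [hd, ← h]
    simp
    ring
  · ext t
    simp only [Set.mem_singleton_iff, Set.mem_image, Set.mem_Iio]
    exact ⟨fun h => ⟨0, by norm_num, h.symm⟩, fun ⟨_, _, h⟩ => h.symm⟩

theorem result : ∀ M : ℕ, ∃ b : ℕ, 2 ≤ b ∧ (M : ℕ∞) < {S : Set ℕ | IsCycle b S}.encard := by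
  intro K
  obtain ⟨M, T0, S, h1, h2, ⟨d, h3⟩, h4, h5⟩ := crt (K + 1)
  obtain ⟨m, rfl⟩ := h2
  have hm : 0 < m := by omega
  have hk : 1 ≤ d + m * (|d| + 1) := by nlinarith [neg_abs_le d, abs_nonneg d]
  have hT : 68 * m ∣ 68 * (d + m * (|d| + 1)) + 9 - T0 := ⟨|d| + 1, by linear_combination -h3⟩
  generalize d + m * (|d| + 1) = k at hk hT
  have key := fun n (hn : n ∈ S) => pt k n hk (h5 n hn).1 (h5 n hn).2.2.1 ((h5 n hn).2.2.2 _ hT)
  choose! x y hxy using key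
  obtain ⟨b, hb⟩ := Int.eq_ofNat_of_zero_le (show (0 : ℤ) ≤ 68 * k ^ 2 + 18 * k + 17 by positivity)
  have hb3 : 3 ≤ b := by
    have : (3 : ℤ) ≤ b := by rw [← hb]; nlinarith
    exact_mod_cast this
  rw [hb] at hxy
  let f : ℤ → Set ℕ := fun n => {(y n).toNat + b * ((x n).toNat + b * 2)}
  have hf : Set.InjOn f S := by
    intro n hn n' hn' h
    obtain ⟨a1, a2, a3, a4, -, a6⟩ := hxy n hn
    obtain ⟨b1, b2, b3, b4, -, b6⟩ := hxy n' hn'
    have h := Set.singleton_eq_singleton_iff.1 h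
    have g1 := congrArg (· % b) h
    simp only [Nat.add_mul_mod_self_left] at g1
    rw [Nat.mod_eq_of_lt (by omega), Nat.mod_eq_of_lt (by omega)] at g1
    rw [g1] at h
    have g2 := Nat.eq_of_mul_eq_mul_left (show 0 < b by omega) (Nat.add_left_cancel h)
    have g3 : y n = y n' := by omega
    have g4 : x n = x n' := by omega
    rw [g3, g4] at a6
    refine pq_inj (h5 n hn).1 (h5 n' hn').1 ?_
    have hpos : 2 * y n' + 136 * k ^ 2 + 34 * k + 33 ≠ 0 := by positivity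
    apply mul_left_cancel₀ hpos
    linear_combination p n' * a6 - p n * b6
  refine ⟨b, by omega, ?_⟩
  have hsub : f '' S ⊆ {S : Set ℕ | IsCycle b S} := by
    rintro _ ⟨n, hn, rfl⟩
    obtain ⟨a1, a2, a3, a4, a5, -⟩ := hxy n hn
    refine fixed b _ _ hb3 (by omega) (by omega) ?_
    have e1 : (((x n).toNat : ℕ) : ℤ) = x n := Int.toNat_of_nonneg a1
    have e2 : (((y n).toNat : ℕ) : ℤ) = y n := Int.toNat_of_nonneg a3
    zify
    rw [e1, e2]
    exact a5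
  refine lt_of_lt_of_le ?_ (Set.encard_le_encard hsub)
  rw [hf.encard_image, Set.encard_coe_eq_coe_finsetCard, h4]
  exact_mod_cast Nat.lt_succ_self K

end Pool.Agent.Results.MP_096971_nt.Unbounded
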